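import Pool.Agent.H.MP_53fb6e_gt.C

set_option autoImplicit false

namespace Pool.Agent.Results.MP_53fb6e_gt.Acyclic

open Pool.Agent.H.MP_53fb6e_gt

/-- An acyclic continuum `X` and a confluent map `F` of `X` onto `F '' X` whose square is not
confluent. -/
theorem result : ∃ (X : Set (ℂ × ℝ)) (F : ℂ × ℝ → ℂ × ℝ), IsCompact X ∧ IsConnected X ∧
    CechAcyclic X ∧ Continuous F ∧ ConfluentOn F X ∧ ¬ ConfluentOn (Prod.map F F) (X ×ˢ X) :=
  ⟨X, F, X_compact, X_conn, cellLike.acyclic, F_cont, confluent, not_confluent⟩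

end Pool.Agent.Results.MP_53fb6e_gt.Acyclic
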